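import Pool.Agent.Y562.NWO.Tensor

/-!
# Weak orthogonality and tensor products of invariant types in NIP theories

We answer Q2 positively: in a NIP theory, if `p₀ ⊥ʷ q` and `p₁ ⊥ʷ q` then `p₀ ⊗ p₁ ⊥ʷ q`.

Idea of the proof. Suppose `a₁ ⊨ p₁`, `a₀ ⊨ p₀|Ua₁`, `b ⊨ q` and `φ(a₀, a₁, b)` has the wrong truth
value. As `p₁ ⊥ʷ q`, `b ⊨ q|Ua₁` and every small part of `q|Ua₁` is realised in `U`; it follows that
over every Morley sequence `B` of `q` over `Ua₁` there are again `x ⊨ p₀|Ua₁B` and `y ⊨ q|Ua₁B` such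
that `φ(x, a₁, y)` has the wrong truth value. As `p₀ ⊥ʷ q`, there are `ψ(x, d) ∈ p₀` and
`χ(y, d) ∈ q`, with `d` in a larger model, implying the right truth value of `φ(x, a₁, y)`. Moving
`x` over `Ua₁B` to a realisation of `p₀` over `Ua₁Bd` we get `y ⊨ q|Ua₁B` with `¬ χ(y, d)`, and
`χ(y, d)` holds for `y ⊨ q|Ua₁Bd`. Hence every pattern of truth values of `χ(y, d)` occurs along
Morley sequences of `q`, which contradicts NIP.
-/

set_option autoImplicit false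

open FirstOrder FirstOrder.Language FirstOrder.Language.Structure Cardinal

universe u

namespace Pool.Agent.Results.MP_f8e4dc_lc.WOrthTensorNIP

open Pool.Agent.Y562.NWO

/-- Let `U` be a monster model (at `κ`) of a NIP theory, and let `p₀`, `p₁`, `q` be global invariant
types (in finite tuples of variables) with `p₀ ⊥ʷ q` and `p₁ ⊥ʷ q`. Then `p₀ ⊗ p₁ ⊥ʷ q`. -/
theorem result (L : FirstOrder.Language.{u, u}) (U : Type u) [L.Structure U] [Nonempty U]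
    (κ : Cardinal.{u}) (hU : IsMonster κ L U) (hN : IsNIP L U)
    (α₀ α₁ β : Type) [Finite α₀] [Finite α₁] [Finite β]
    (p₀ : Set (L.Formula (α₀ ⊕ U))) (p₁ : Set (L.Formula (α₁ ⊕ U))) (q : Set (L.Formula (β ⊕ U)))
    (hp₀ : IsGlobalType p₀) (hp₁ : IsGlobalType p₁) (hq : IsGlobalType q)
    (A₀ A₁ A₂ : Set U) (hA₀ : #A₀ < κ) (hA₁ : #A₁ < κ) (hA₂ : #A₂ < κ)
    (i₀ : Invariant A₀ p₀) (i₁ : Invariant A₁ p₁) (i₂ : Invariant A₂ q)
    (w₀ : WOrth p₀ q) (w₁ : WOrth p₁ q) :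
    (∃ r : Set (L.Formula ((α₀ ⊕ α₁) ⊕ U)), IsGlobalType r ∧ IsTensor A₀ p₀ p₁ r) ∧
    ∀ r : Set (L.Formula ((α₀ ⊕ α₁) ⊕ U)), IsTensor A₀ p₀ p₁ r → WOrth r q :=
  ⟨exists_tensor hU hp₀ hp₁ hA₀ i₀,
    fun _ hr => worth_tensor hU hN hp₀ hp₁ hq hA₀ hA₁ hA₂ i₀ i₁ i₂ w₀ w₁ hr⟩

end Pool.Agent.Results.MP_f8e4dc_lc.WOrthTensorNIP
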